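import Mathlib
import Pool.Agent.Helper281.ConfProof

/-!
Conformal equivalence of the domains `ℂ \ S`, where `S` ranges over the closed subsets of `ℂ`
without accumulation point, is an essentially hyperfinite Borel equivalence relation.

Outline of the proof.
* A biholomorphism `ℂ \ S → ℂ \ T` is affine, or `S` is finite and it is a Moebius map with its
  pole in `S` (`conf_cases`).
* The normalised sets (those containing `0` and `1`, and two trivial ones) form a Borel section
  `YSet`; the induced relation `EY` has countable classes, enumerated by Borel maps `psi`.
* For infinite `S`, the members of the class of `S` in the section correspond to the pairs `(z, w)`
  of distinct points of `S`, that is, to points `(z, |w - z|)` of hyperbolic three-space. We take a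
  Borel maximal separated family `M` of pairs (`exists_M`) and the map `phi` which moves a pair up to
  the lowest pair of `M` in the cone above it. Any two vertical rays are asymptotic, so by a packing
  bound (`UpMap.window`, `exists_pack`) every class contains boundedly many tail classes of `phi`.
* The tail equivalence relation of a Borel map is hyperfinite (`hyperfinite_tail`), and so is a
  countable Borel equivalence relation each of whose classes contains only finitely many classes of a
  hyperfinite subrelation (`hyperfinite_finite_index`).
-/

namespace Pool.Agent.Results.MP_ab4ef0_lc.ConformalEssHyperfinite

open Pool.Agent.Helper281.Conformal

/-- Conformal equivalence of the domains `ℂ \ S`, `S` a closed subset of `ℂ` without accumulation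
point, is essentially hyperfinite. -/
theorem result : EssentiallyHyperfinite ConfEquiv :=
  essentiallyHyperfinite_confEquiv

end Pool.Agent.Results.MP_ab4ef0_lc.ConformalEssHyperfinite
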